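import Pool.Agent.Lib.MP_f11a48_ag.SH.CLS.Eig

/-!
# PROJECT S0, part CLS: the class of a Hodge relation

`χ` is a relation between the CM types. The tensor `t` is the product of the algebraic eigenvectors
`v_s` (rows; for `χ s > 0`) and `ψ⁻¹ v_s̄` (columns; for `χ s < 0`), with coordinates in a number field
`E`. For `lam ∈ E` the rational tensor `Tr (lam t)` is the Betti part of a class.
-/

set_option autoImplicit false

open Matrix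
open Pool.Agent.Lib.MPf11a48.CM (Qbar tens TIdx TPair Fixes OmegaS)
open Pool.Agent.Lib.MPf11a48.GL2T
open Pool.Agent.Lib.MPf11a48.U
open Pool.Agent.Lib.MPf11a48.CMS

namespace Pool.Agent.Lib.MPf11a48.SH.ClsM

section Gal

variable {ι : Type} [Fintype ι] [DecidableEq ι] {c : Matrix ι ι ℂ} {ψ : Matrix ι ι ℚ}
  {T : Set (EmbC c)}

theorem hodgeRel_act (hT : CMM.HalfSet ψ T) {χ : EmbC c → ℤ} (hχ : HodgeRel ψ T χ) (γ : GalQ) :
    HodgeRel ψ T (fun s => χ (CMS.act γ⁻¹ s)) := by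
  classical
  refine ⟨fun s hs => hχ.1 _ ?_, fun δ => ?_⟩
  · by_contra hcon
    have h1 := SH.A.RelM.nr_act hT γ hcon
    apply h1
    have h2 : CMS.act γ (CMS.act γ⁻¹ s) = s := by
      have := SH.A.RelM.act_inv_act γ⁻¹ s
      rwa [inv_inv] at this
    rw [h2]
    exact hs
  · refine Eq.trans ?_ (hχ.2 (δ * γ))
    refine (Fintype.sum_equiv (SH.A.RelM.eqv (c := c) γ) _ _ fun s => ?_).symm
    change (if CMS.act (δ * γ) s ∈ T then χ s else 0) =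
      if CMS.act δ (CMS.act γ s) ∈ T then χ (CMS.act γ⁻¹ (CMS.act γ s)) else 0
    rw [SH.A.RelM.act_mul, SH.A.RelM.act_inv_act]

theorem prod_act {χ : EmbC c → ℤ} (γ : GalQ) (u : EmbC c → ℂ) :
    ∏ s, u (CMS.act γ s) ^ χ s = ∏ s, u s ^ χ (CMS.act γ⁻¹ s) := by
  refine Fintype.prod_equiv (SH.A.RelM.eqv γ) _ _ fun s => ?_
  change u (CMS.act γ s) ^ χ s = u (CMS.act γ s) ^ χ (CMS.act γ⁻¹ (CMS.act γ s))
  rw [SH.A.RelM.act_inv_act]

end Gal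

/-- the embedding of a number field which is given by an automorphism of `Qbar` -/
noncomputable def tht (E : Sub) (γ : GalQ) : E →+* ℂ :=
  (algebraMap Qbar ℂ).comp (((AlgEquiv.toAlgHom γ).comp E.val : E →ₐ[ℚ] Qbar) : E →+* Qbar)

theorem tht_apply (E : Sub) (γ : GalQ) (x : E) : tht E γ x = (ap γ x : ℂ) := rfl

theorem tht_one (E : Sub) (x : E) : tht E 1 x = ((x : Qbar) : ℂ) := rfl

theorem tht_mem (E : Sub) (γ : GalQ) (x : E) : tht E γ x ∈ Qbar := (ap γ x).2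

theorem tht_rat (E : Sub) (γ : GalQ) (q : ℚ) : tht E γ (algebraMap ℚ E q) = (q : ℂ) := by
  simp

/-- The trace as a sum over the embeddings. -/
theorem trace_eq (E : Sub) [FiniteDimensional ℚ E] (G : (E →ₐ[ℚ] Qbar) → GalQ)
    (hG : ∀ φ (x : E), ap (G φ) (x : Qbar) = φ x) (x : E) :
    ((Algebra.trace ℚ E x : ℚ) : ℂ) = ∑ φ : E →ₐ[ℚ] Qbar, tht E (G φ) x := by
  have h1 := trace_eq_sum_embeddings (K := ℚ) (L := E) Qbar (x := x)
  have h2 := congrArg (fun t : Qbar => (t : ℂ)) h1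
  rw [AddSubmonoidClass.coe_finsetSum] at h2
  have h3 : ((Algebra.trace ℚ E x : ℚ) : ℂ) =
      ((algebraMap ℚ Qbar (Algebra.trace ℚ E x) : Qbar) : ℂ) := by
    simp
  rw [h3]
  refine h2.trans (Finset.sum_congr rfl fun φ _ => ?_)
  rw [tht_apply, hG]

section Cls

variable {g N : ℕ} {A : AbData g N} {c : GL (Ix g) ℂ} {J : Matrix (Ix g) (Ix g) ℝ}

/-- The tensor. -/
noncomputable def tt (A : AbData g N) {c : GL (Ix g) ℂ} {E : Sub} (ρ : GalQ)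
    (v : EmbC c.1 → Ix g → E) {n m : ℕ} (σ : Fin n → EmbC c.1) (τ : Fin m → EmbC c.1) :
    TIdx (Ix g) n m → E :=
  pur (fun a i => ∑ k, algebraMap ℚ E (A.psi⁻¹ i k) * v (CMS.act ρ (σ a)) k) fun b => v (τ b)

theorem tht_tt (E : Sub) (γ ρ : GalQ) (v : EmbC c.1 → Ix g → E) {n m : ℕ}
    (σ : Fin n → EmbC c.1) (τ : Fin m → EmbC c.1) :
    (fun I => tht E γ (tt A ρ v σ τ I)) =
      pur (fun a => mC A.psi⁻¹ *ᵥ fun k => tht E γ (v (CMS.act ρ (σ a)) k))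
        (fun b k => tht E γ (v (τ b) k)) := by
  funext I
  rw [tt, map_pur]
  congr 1
  funext a i
  rw [map_sum]
  refine Finset.sum_congr rfl fun k _ => ?_
  rw [map_mul, tht_rat]
  rfl

variable {E : Sub} {v : EmbC c.1 → Ix g → E}

/-- the eigenvectors, transformed by an automorphism -/
theorem eig_tht (hv : ∀ s, Eig s (fun i => ((v s i : Qbar) : ℂ))) (γ : GalQ) (s : EmbC c.1) :
    Eig (CMS.act γ s) (fun i => tht E γ (v s i)) :=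
  eig_act γ (hv s)

/-- The action of an element of the commutant on the tensor. -/
theorem act_tt (h : HD c J A.psi) (S : Str c A.psi) (hT : CMM.HalfSet A.psi (Tan A c.1))
    {ρ : GalQ} (hρ : IsConj ρ) (hv : ∀ s, Eig s (fun i => ((v s i : Qbar) : ℂ)))
    {χ : EmbC c.1 → ℤ} (hχ : HodgeRel A.psi (Tan A c.1) χ) {n m : ℕ} {σ : Fin n → EmbC c.1}
    {τ : Fin m → EmbC c.1} (hσ : ∀ a, χ (σ a) ≠ 0) (hτ : ∀ b, χ (τ b) ≠ 0)
    (hprod : ∀ u : EmbC c.1 → ℂ, (∏ a, (u (σ a))⁻¹) * ∏ b, u (τ b) = ∏ s, u s ^ χ s)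
    {x : GL (Ix g) ℂ} {X : S.κ → Matrix (Fin 2) (Fin 2) ℂ} {Y : S.σ → ℂ}
    (hx : S.Ψ (X, Y) = x.1) (γ : GalQ) :
    tens n m x.1 x⁻¹.1 *ᵥ (fun I => tht E γ (tt A ρ v σ τ I)) =
      (∏ s, uu S Y s ^ χ (CMS.act γ⁻¹ s))⁻¹ • fun I => tht E γ (tt A ρ v σ τ I) := by
  have hnr : ∀ s, χ s ≠ 0 → ¬ IsBar A.psi (CMS.act γ s) (CMS.act γ s) := fun s hs =>
    SH.A.RelM.nr_act hT γ fun hb => hs (hχ.1 s hb)
  have hcol : ∀ a, x.1 *ᵥ (mC A.psi⁻¹ *ᵥ fun k => tht E γ (v (CMS.act ρ (σ a)) k)) =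
      uu S Y (CMS.act γ (σ a)) • (mC A.psi⁻¹ *ᵥ fun k => tht E γ (v (CMS.act ρ (σ a)) k)) := by
    intro a
    rw [← hx]
    have h1 : IsBar A.psi (CMS.act γ (σ a)) (CMS.act γ (CMS.act ρ (σ a))) :=
      hT.2.2.2.2.1 γ _ _ (SH.A.RelM.isBar_act hT hρ (σ a))
    exact col h S X Y (hnr _ (hσ a)) h1 (eig_tht hv γ _)
  have hrow : ∀ b, (fun k => tht E γ (v (τ b) k)) ᵥ* x⁻¹.1 =
      (uu S Y (CMS.act γ (τ b)))⁻¹ • fun k => tht E γ (v (τ b) k) := by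
    intro b
    refine row_inv ?_
    rw [← hx]
    exact row S X Y (hnr _ (hτ b)) (eig_tht hv γ _)
  rw [tht_tt, tens_pur]
  have h2 : pur (fun a => x.1 *ᵥ (mC A.psi⁻¹ *ᵥ fun k => tht E γ (v (CMS.act ρ (σ a)) k)))
      (fun b => (fun k => tht E γ (v (τ b) k)) ᵥ* x⁻¹.1) =
      pur (fun a => uu S Y (CMS.act γ (σ a)) •
        (mC A.psi⁻¹ *ᵥ fun k => tht E γ (v (CMS.act ρ (σ a)) k)))
      (fun b => (uu S Y (CMS.act γ (τ b)))⁻¹ • fun k => tht E γ (v (τ b) k)) := by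
    congr 1
    · funext a
      exact hcol a
    · funext b
      exact hrow b
  rw [h2, pur_smul]
  congr 1
  rw [← prod_act γ (uu S Y), ← hprod fun s => uu S Y (CMS.act γ s), mul_inv, ← Finset.prod_inv_distrib,
    ← Finset.prod_inv_distrib]
  simp only [inv_inv]

/-- The action of the inverse of the period matrix. -/
theorem per_tt (h : HD c J A.psi) (S : Str c A.psi) (hT : CMM.HalfSet A.psi (Tan A c.1))
    {p : EmbC c.1 → ℂ} (hp : IsPer A c p)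
    {ρ : GalQ} (hρ : IsConj ρ) (hv : ∀ s, Eig s (fun i => ((v s i : Qbar) : ℂ)))
    {χ : EmbC c.1 → ℤ} (hχ : HodgeRel A.psi (Tan A c.1) χ) {n m : ℕ} {σ : Fin n → EmbC c.1}
    {τ : Fin m → EmbC c.1} (hσ : ∀ a, χ (σ a) ≠ 0) (hτ : ∀ b, χ (τ b) ≠ 0)
    (hprod : ∀ u : EmbC c.1 → ℂ, (∏ a, (u (σ a))⁻¹) * ∏ b, u (τ b) = ∏ s, u s ^ χ s)
    (γ : GalQ) (hrel : ∏ s, p s ^ χ (CMS.act γ⁻¹ s) ∈ Qbar) (I : TIdx (Ix g) n m) :
    (tens n m c⁻¹.1 c.1 *ᵥ (fun I => tht E γ (tt A ρ v σ τ I))) I ∈ Qbar := by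
  have hnr : ∀ s, χ s ≠ 0 → ¬ IsBar A.psi (CMS.act γ s) (CMS.act γ s) := fun s hs =>
    SH.A.RelM.nr_act hT γ fun hb => hs (hχ.1 s hb)
  have hcol : ∀ a, ∃ w : Ix g → ℂ, (∀ i, w i ∈ Qbar) ∧
      c⁻¹.1 *ᵥ (mC A.psi⁻¹ *ᵥ fun k => tht E γ (v (CMS.act ρ (σ a)) k)) =
      (p (CMS.act γ (σ a)))⁻¹ • w := by
    intro a
    have h1 : IsBar A.psi (CMS.act γ (σ a)) (CMS.act γ (CMS.act ρ (σ a))) :=
      hT.2.2.2.2.1 γ _ _ (SH.A.RelM.isBar_act hT hρ (σ a))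
    have h2 : ¬ IsBar A.psi (CMS.act γ (CMS.act ρ (σ a))) (CMS.act γ (CMS.act ρ (σ a))) :=
      SH.A.RelM.nr_act hT γ (SH.A.RelM.nr_act hT ρ fun hb => hσ a (hχ.1 _ hb))
    exact per_col h S hp (hnr _ (hσ a)) h2 h1 (fun i => tht_mem E γ _) (eig_tht hv γ _)
  have hrow : ∀ b, ∃ w : Ix g → ℂ, (∀ i, w i ∈ Qbar) ∧
      (fun k => tht E γ (v (τ b) k)) ᵥ* c.1 = p (CMS.act γ (τ b)) • w := fun b =>
    per_row hp (hnr _ (hτ b)) (fun i => tht_mem E γ _) (eig_tht hv γ _)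
  choose w hw hw2 using hcol
  choose r hr hr2 using hrow
  rw [tht_tt, tens_pur]
  have h2 : pur (fun a => c⁻¹.1 *ᵥ (mC A.psi⁻¹ *ᵥ fun k => tht E γ (v (CMS.act ρ (σ a)) k)))
      (fun b => (fun k => tht E γ (v (τ b) k)) ᵥ* c.1) =
      pur (fun a => (p (CMS.act γ (σ a)))⁻¹ • w a) (fun b => p (CMS.act γ (τ b)) • r b) := by
    congr 1
    · funext a
      exact hw2 a
    · funext b
      exact hr2 b
  rw [h2, pur_smul, hprod fun s => p (CMS.act γ s), prod_act γ p, Pi.smul_apply, smul_eq_mul]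
  refine Qbar.mul_mem hrel (Qbar.mul_mem ?_ ?_)
  · exact prod_mem fun a _ => hw a _
  · exact prod_mem fun b _ => hr b _

end Cls

end Pool.Agent.Lib.MPf11a48.SH.ClsM
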