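import Pool.Agent.Lib.MP_f11a48_ag.helper16.Closed

/-!
# PROJECT S0, part CLS: pure tensors, and products of powers as products over words
-/

set_option autoImplicit false

namespace Pool.Agent.Lib.MPf11a48.SH.ClsM

open Matrix
open Pool.Agent.Lib.MPf11a48.CM

section Tens

variable {ι R : Type} [CommRing R]

/-- The pure tensor `y_1 ⊗ ⋯ ⊗ y_n ⊗ v_1 ⊗ ⋯ ⊗ v_m`, with `y_a ∈ V`, `v_b ∈ V^∨`. -/
def pur {n m : ℕ} (y : Fin n → ι → R) (v : Fin m → ι → R) : TIdx ι n m → R :=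
  fun I => (∏ a, y a (I.1 a)) * ∏ b, v b (I.2 b)

theorem tens_pur [Fintype ι] {n m : ℕ} (g g' : Matrix ι ι R) (y : Fin n → ι → R)
    (v : Fin m → ι → R) :
    tens n m g g' *ᵥ pur y v = pur (fun a => g *ᵥ y a) (fun b => v b ᵥ* g') := by
  classical
  funext I
  simp only [Matrix.mulVec, Matrix.vecMul, dotProduct, tens, pur]
  rw [Fintype.sum_prod_type]
  have e1 : (∏ a, ∑ j, g (I.1 a) j * y a j) =
      ∑ p : Fin n → ι, ∏ a, (g (I.1 a) (p a) * y a (p a)) := by
    rw [Finset.prod_univ_sum]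
    simp
  have e2 : (∏ b, ∑ j, v b j * g' j (I.2 b)) =
      ∑ p : Fin m → ι, ∏ b, (v b (p b) * g' (p b) (I.2 b)) := by
    rw [Finset.prod_univ_sum]
    simp
  rw [e1, e2, Finset.sum_mul_sum]
  refine Finset.sum_congr rfl fun p _ => Finset.sum_congr rfl fun q _ => ?_
  simp only [Finset.prod_mul_distrib]
  ring

theorem pur_smul {n m : ℕ} (y : Fin n → ι → R) (v : Fin m → ι → R) (a : Fin n → R)
    (b : Fin m → R) :
    pur (fun k => a k • y k) (fun k => b k • v k) = ((∏ k, a k) * ∏ k, b k) • pur y v := by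
  funext I
  simp only [pur, Pi.smul_apply, smul_eq_mul, Finset.prod_mul_distrib]
  ring

/-- ring homomorphisms -/
theorem map_pur {R' : Type} [CommRing R'] (φ : R →+* R') {n m : ℕ} (y : Fin n → ι → R)
    (v : Fin m → ι → R) (I : TIdx ι n m) :
    φ (pur y v I) = pur (fun a i => φ (y a i)) (fun b i => φ (v b i)) I := by
  simp only [pur, map_mul, map_prod]

theorem pur_ne [IsDomain R] {n m : ℕ} {y : Fin n → ι → R} {v : Fin m → ι → R}
    (hy : ∀ a, y a ≠ 0) (hv : ∀ b, v b ≠ 0) : ∃ I, pur y v I ≠ 0 := by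
  have h1 : ∀ a, ∃ i, y a i ≠ 0 := fun a => by
    by_contra hcon
    push Not at hcon
    exact hy a (funext hcon)
  have h2 : ∀ b, ∃ i, v b i ≠ 0 := fun b => by
    by_contra hcon
    push Not at hcon
    exact hv b (funext hcon)
  choose i hi using h1
  choose k hk using h2
  exact ⟨(i, k), mul_ne_zero (Finset.prod_ne_zero_iff.2 fun a _ => hi a)
    (Finset.prod_ne_zero_iff.2 fun b _ => hk b)⟩

end Tens

section Words

variable {E : Type} [Fintype E]

theorem exists_word (k : E → ℕ) : ∃ (m : ℕ) (τ : Fin m → E), (∀ b, k (τ b) ≠ 0) ∧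
    ∀ u : E → ℂ, ∏ b, u (τ b) = ∏ s, u s ^ k s := by
  classical
  let e := Fintype.equivFin (Σ s : E, Fin (k s))
  refine ⟨Fintype.card (Σ s : E, Fin (k s)), fun b => (e.symm b).1, fun b => ?_, fun u => ?_⟩
  · intro h
    have h1 := (e.symm b).2
    rw [h] at h1
    exact h1.elim0
  · rw [Equiv.prod_comp e.symm (fun q : Σ s : E, Fin (k s) => u q.1), Fintype.prod_sigma]
    refine Finset.prod_congr rfl fun s _ => ?_
    change ∏ _y : Fin (k s), u s = u s ^ k s
    rw [Finset.prod_const, Finset.card_univ, Fintype.card_fin]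

theorem zpow_split (a : ℂ) (z : ℤ) : a⁻¹ ^ (-z).toNat * a ^ z.toNat = a ^ z := by
  rcases le_total 0 z with h | h
  · have h1 : (-z).toNat = 0 := Int.toNat_of_nonpos (by omega)
    rw [h1, pow_zero, one_mul]
    conv_rhs => rw [← Int.toNat_of_nonneg h]
    rw [zpow_natCast]
  · have h1 : z.toNat = 0 := Int.toNat_of_nonpos h
    rw [h1, pow_zero, mul_one]
    have h2 : z = -((-z).toNat : ℤ) := by
      rw [Int.toNat_of_nonneg (by omega)]
      ring
    conv_rhs => rw [h2]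
    rw [_root_.zpow_neg, zpow_natCast, inv_pow]

/-- The product `∏ u s ^ χ s` as a product over words. -/
theorem exists_words (χ : E → ℤ) : ∃ (n m : ℕ) (σ : Fin n → E) (τ : Fin m → E),
    (∀ a, χ (σ a) ≠ 0) ∧ (∀ b, χ (τ b) ≠ 0) ∧
    ∀ u : E → ℂ, (∏ a, (u (σ a))⁻¹) * ∏ b, u (τ b) = ∏ s, u s ^ χ s := by
  obtain ⟨n, σ, hσ, h1⟩ := exists_word fun s => (-χ s).toNat
  obtain ⟨m, τ, hτ, h2⟩ := exists_word fun s => (χ s).toNat
  refine ⟨n, m, σ, τ, fun a h => hσ a ?_, fun b h => hτ b ?_, fun u => ?_⟩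
  · rw [h]
    rfl
  · rw [h]
    rfl
  · rw [h1 fun s => (u s)⁻¹, h2 u, ← Finset.prod_mul_distrib]
    exact Finset.prod_congr rfl fun s _ => zpow_split _ _

end Words

end Pool.Agent.Lib.MPf11a48.SH.ClsM
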