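import Pool.Agent.Lib.MP_f11a48_ag.SH.RED.Per
import Pool.Agent.Lib.MP_f11a48_ag.SH.CLS.Tens

/-!
# PROJECT S0, part CLS: eigenvectors on both sides

For the rows `v` in the eigenspace of `s` and the columns `ψ⁻¹ v'`, `v'` in the eigenspace of `s̄`: the
action of the elements of the commutant (by `u s`), and the action of the period matrix (`p s`, resp.
`1 / p s`).
-/

set_option autoImplicit false

open Matrix
open Pool.Agent.Lib.MPf11a48.CM (Qbar)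
open Pool.Agent.Lib.MPf11a48.GL2T
open Pool.Agent.Lib.MPf11a48.U
open Pool.Agent.Lib.MPf11a48.CMS

namespace Pool.Agent.Lib.MPf11a48.SH.ClsM

section

variable {ι : Type} [Fintype ι] [DecidableEq ι] {c : GL ι ℂ} {J : Matrix ι ι ℝ}
  {ψ : Matrix ι ι ℚ}

/-- The eigenvalues of `Ψ (x, y)` on the eigenvectors of the embeddings which are not real. -/
noncomputable def uu (S : Str c ψ) (y : S.σ → ℂ) (s : EmbC c.1) : ℂ :=
  Sum.elim (fun _ => 1) y (S.ev.symm s)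

theorem uu_inr (S : Str c ψ) (y : S.σ → ℂ) (j : S.σ) : uu S y (S.ev (Sum.inr j)) = y j := by
  simp [uu]

theorem row (S : Str c ψ) (x : S.κ → Matrix (Fin 2) (Fin 2) ℂ) (y : S.σ → ℂ) {s : EmbC c.1}
    (hs : ¬ IsBar ψ s s) {v : ι → ℂ} (hv : Eig s v) : v ᵥ* S.Ψ (x, y) = uu S y s • v := by
  obtain ⟨j, rfl⟩ := RedM.exists_j S hs
  rw [uu_inr]
  exact CMM.TanM.eig_Ψ S j hv x y

theorem col (h : HD c J ψ) (S : Str c ψ) (x : S.κ → Matrix (Fin 2) (Fin 2) ℂ) (y : S.σ → ℂ)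
    {s s' : EmbC c.1} (hs : ¬ IsBar ψ s s) (hss : IsBar ψ s s') {v : ι → ℂ} (hv : Eig s' v) :
    S.Ψ (x, y) *ᵥ (mC ψ⁻¹ *ᵥ v) = uu S y s • (mC ψ⁻¹ *ᵥ v) := by
  obtain ⟨j, rfl⟩ := RedM.exists_j S hs
  have hs' : s' = S.ev (Sum.inr (S.τ j)) := RedM.bar_unique h hss (S.bar_σ j)
  subst hs'
  rw [uu_inr]
  have hψ2 : mC ψ⁻¹ * mC ψ = 1 := BicM.mC_inv_mul h.det
  have h1 := CMM.TanM.eig_Ψ S (S.τ j) hv (fun k => (x k).adjugate) (fun s => y (S.τ s))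
  rw [← S.adj_Ψ, S.τ_τ] at h1
  have h2 : (adj (mC ψ) (S.Ψ (x, y)))ᵀ = mC ψ * S.Ψ (x, y) * mC ψ⁻¹ := by
    unfold adj
    rw [Matrix.transpose_mul, Matrix.transpose_mul, Matrix.transpose_transpose,
      ← BicM.mC_inv h.det, ← BicM.mC_transpose, ← BicM.mC_transpose, Matrix.transpose_nonsing_inv,
      h.skew]
    have h3 : (-ψ)⁻¹ = -ψ⁻¹ := by
      apply Matrix.inv_eq_left_inv
      rw [neg_mul_neg, Matrix.nonsing_inv_mul _ (isUnit_iff_ne_zero.2 h.det)]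
    rw [h3]
    have h4 : mC (-ψ) = -mC ψ := by ext a b; simp [mC]
    have h5 : mC (-ψ⁻¹) = -mC ψ⁻¹ := by ext a b; simp [mC]
    rw [h4, h5]
    simp [Matrix.mul_assoc]
  rw [← Matrix.mulVec_transpose, h2, ← Matrix.mulVec_mulVec, ← Matrix.mulVec_mulVec] at h1
  have h6 := congrArg (fun w => mC ψ⁻¹ *ᵥ w) h1
  simp only [Matrix.mulVec_mulVec, Matrix.mulVec_smul] at h6
  rw [← Matrix.mul_assoc, ← Matrix.mul_assoc, hψ2, Matrix.one_mul, ← Matrix.mulVec_mulVec] at h6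
  exact h6

theorem row_inv {x : GL ι ℂ} {v : ι → ℂ} {u : ℂ} (h : v ᵥ* x.1 = u • v) :
    v ᵥ* x⁻¹.1 = u⁻¹ • v := by
  have h1 : v = u • (v ᵥ* x⁻¹.1) := by
    have h2 := congrArg (fun w => w ᵥ* x⁻¹.1) h
    simp only [Matrix.vecMul_vecMul, Matrix.smul_vecMul] at h2
    rw [Units.mul_inv, Matrix.vecMul_one] at h2
    exact h2
  by_cases hu : u = 0
  · have h3 : v = 0 := by rw [h1, hu, zero_smul]
    rw [h3, Matrix.zero_vecMul, smul_zero]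
  · conv_rhs => rw [h1, smul_smul, inv_mul_cancel₀ hu, one_smul]

/-- The image of an element of the commutant. -/
theorem exists_pre (S : Str c ψ) {x : Matrix ι ι ℂ}
    (hx : ∀ Z ∈ EndAlg c.1, x * Z.map (fun x => (x : ℂ)) = Z.map (fun x => (x : ℂ)) * x) :
    ∃ (X : S.κ → Matrix (Fin 2) (Fin 2) ℂ) (Y : S.σ → ℂ), S.Ψ (X, Y) = x := by
  obtain ⟨⟨X, Y⟩, h⟩ := (S.mem_range x).2 hx
  exact ⟨X, Y, h⟩

/-- An eigenvector for `s`, transformed by an automorphism. -/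
theorem eig_act {M : Matrix ι ι ℂ} (γ : GalQ) {s : EmbC M} {v : ι → Qbar}
    (hv : Eig s (fun i => (v i : ℂ))) : Eig (CMS.act γ s) (fun i => (ap γ (v i) : ℂ)) := by
  intro z
  have h1 := hv z
  funext k
  have h2 := congrFun h1 k
  have h3 : ∑ i, v i * algebraMap ℚ Qbar (z.1 i k) = s z * v k := by
    apply Subtype.ext
    rw [AddSubmonoidClass.coe_finsetSum]
    exact h2
  have h4 := congrArg (AlgEquiv.toAlgHom γ) h3
  rw [map_sum, map_mul] at h4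
  have h5 := congrArg (fun t : Qbar => (t : ℂ)) h4
  rw [AddSubmonoidClass.coe_finsetSum] at h5
  refine Eq.trans ?_ h5
  change ∑ i, (ap γ (v i) : ℂ) * ((z.1 i k : ℚ) : ℂ) = _
  refine Finset.sum_congr rfl fun i _ => ?_
  rw [map_mul, AlgHom.commutes]
  rfl

end

section Per

variable {g N : ℕ} {A : AbData g N} {c : GL (Ix g) ℂ} {J : Matrix (Ix g) (Ix g) ℝ}

theorem per_row {p : EmbC c.1 → ℂ} (hp : IsPer A c p) {s : EmbC c.1} (hs : ¬ IsBar A.psi s s)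
    {v : Ix g → ℂ} (hva : ∀ i, v i ∈ Qbar) (hv : Eig s v) :
    ∃ w : Ix g → ℂ, (∀ i, w i ∈ Qbar) ∧ v ᵥ* c.1 = p s • w := by
  refine ⟨fun i => (v ᵥ* c.1) i / p s, fun i => hp.per s hs v hva hv i, ?_⟩
  funext i
  rw [Pi.smul_apply, smul_eq_mul, mul_div_cancel₀]
  exact hp.ne s

theorem per_col (h : HD c J A.psi) (S : Str c A.psi) {p : EmbC c.1 → ℂ} (hp : IsPer A c p)
    {s s' : EmbC c.1} (hs : ¬ IsBar A.psi s s) (hs' : ¬ IsBar A.psi s' s')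
    (hss : IsBar A.psi s s') {v : Ix g → ℂ} (hva : ∀ i, v i ∈ Qbar) (hv : Eig s' v) :
    ∃ w : Ix g → ℂ, (∀ i, w i ∈ Qbar) ∧ c⁻¹.1 *ᵥ (mC A.psi⁻¹ *ᵥ v) = (p s)⁻¹ • w := by
  obtain ⟨D, hD, hleg⟩ := h.leg
  obtain ⟨w, hwa, hw⟩ := per_row hp hs' hva hv
  have h2pi : (2 * Real.pi * Complex.I : ℂ) ≠ 0 := Complex.two_pi_I_ne_zero
  have hψ1 : mC A.psi * mC A.psi⁻¹ = 1 := BicM.mC_mul_inv h.det
  have hψ2 : mC A.psi⁻¹ * mC A.psi = 1 := BicM.mC_inv_mul h.det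
  have hpp := RedM.leg_of_isPer h S hp hs hs' hss
  have hps := hp.ne s
  have hps' := hp.ne s'
  -- the inverse of the Gram matrix
  have h8 : D *ᵥ (c⁻¹.1 *ᵥ (mC A.psi⁻¹ *ᵥ v)) =
      (2 * Real.pi * Complex.I : ℂ)⁻¹ • (v ᵥ* c.1) := by
    have h9 : D = (2 * Real.pi * Complex.I : ℂ)⁻¹ • (c.1ᵀ * mC A.psi * c.1) := by
      rw [hleg, smul_smul, inv_mul_cancel₀ h2pi, one_smul]
    rw [h9, Matrix.smul_mulVec, Matrix.mulVec_mulVec, Matrix.mul_assoc (c.1ᵀ * mC A.psi),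
      Units.mul_inv, Matrix.mul_one, Matrix.mulVec_mulVec, Matrix.mul_assoc, hψ1,
      Matrix.mul_one, Matrix.mulVec_transpose]
  have hDu : IsUnit D.det := by
    have h9 : D * ((2 * Real.pi * Complex.I : ℂ) • (c⁻¹.1 * mC A.psi⁻¹ * c⁻¹.1ᵀ)) = 1 := by
      have h10 : D = (2 * Real.pi * Complex.I : ℂ)⁻¹ • (c.1ᵀ * mC A.psi * c.1) := by
        rw [hleg, smul_smul, inv_mul_cancel₀ h2pi, one_smul]
      rw [h10, Matrix.smul_mul, Matrix.mul_smul, smul_smul, inv_mul_cancel₀ h2pi, one_smul]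
      calc c.1ᵀ * mC A.psi * c.1 * (c⁻¹.1 * mC A.psi⁻¹ * c⁻¹.1ᵀ)
          = c.1ᵀ * (mC A.psi * (c.1 * c⁻¹.1) * mC A.psi⁻¹) * c⁻¹.1ᵀ := by
            simp only [Matrix.mul_assoc]
        _ = 1 := by
            rw [Units.mul_inv, Matrix.mul_one, hψ1, Matrix.mul_one, ← Matrix.transpose_mul,
              Units.inv_mul, Matrix.transpose_one]
    have h10 := congrArg Matrix.det h9
    rw [Matrix.det_mul, Matrix.det_one] at h10
    exact IsUnit.of_mul_eq_one _ h10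
  have h11 : c⁻¹.1 *ᵥ (mC A.psi⁻¹ *ᵥ v) =
      D⁻¹ *ᵥ ((2 * Real.pi * Complex.I : ℂ)⁻¹ • (v ᵥ* c.1)) := by
    rw [← h8, Matrix.mulVec_mulVec _ D⁻¹ D, Matrix.nonsing_inv_mul _ hDu, Matrix.one_mulVec]
  refine ⟨(p s * p s' / (2 * Real.pi * Complex.I)) • (D⁻¹ *ᵥ w), fun i => ?_, ?_⟩
  · rw [Pi.smul_apply, smul_eq_mul]
    refine Qbar.mul_mem hpp ?_
    change ∑ k, D⁻¹ i k * w k ∈ Qbar.toSubfield
    exact Subfield.sum_mem Qbar.toSubfield fun k _ =>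
      Qbar.mul_mem (BicM.isAlg_inv hD i k) (hwa k)
  · rw [h11, hw, smul_smul, smul_smul, Matrix.mulVec_smul]
    congr 1
    field_simp

end Per

end Pool.Agent.Lib.MPf11a48.SH.ClsM
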