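import Pool.Agent.Lib.MP_f11a48_ag.SH.Spec
import Pool.Agent.Lib.MP_f11a48_ag.SH.A.Rel
import Pool.Agent.Lib.MP_f11a48_ag.CMM.All

/-!
# PROJECT S0: all Hodge relations hold for the periods (from `SpecREL`, `SpecLEG` and part (a))

Part (a) (`SH.A.specA`) is applied to the group `ℂˣ` modulo the algebraic numbers.
-/

set_option autoImplicit false

open Matrix
open Pool.Agent.Lib.MPf11a48.CM hiding OmegaM
open Pool.Agent.Lib.MPf11a48.GL2T
open Pool.Agent.Lib.MPf11a48.U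
open Pool.Agent.Lib.MPf11a48.CMS

namespace Pool.Agent.Lib.MPf11a48.SH

namespace HodM

/-- the algebraic numbers different from `0` -/
def algU : Subgroup ℂˣ where
  carrier := {u | (u : ℂ) ∈ Qbar}
  one_mem' := by
    change ((1 : ℂˣ) : ℂ) ∈ Qbar
    rw [Units.val_one]
    exact one_mem _
  mul_mem' := by
    intro a b ha hb
    change ((a * b : ℂˣ) : ℂ) ∈ Qbar
    rw [Units.val_mul]
    exact mul_mem ha hb
  inv_mem' := by
    intro a ha
    change ((a⁻¹ : ℂˣ) : ℂ) ∈ Qbar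
    rw [Units.val_inv_eq_inv_val]
    exact inv_mem ha

theorem mem_algU {u : ℂˣ} : u ∈ algU ↔ (u : ℂ) ∈ Qbar := Iff.rfl

/-- the class of a complex number different from `0` -/
def cls (u : ℂˣ) : ℂˣ ⧸ algU := QuotientGroup.mk u

theorem cls_eq {u v : ℂˣ} (h : ((u / v : ℂˣ) : ℂ) ∈ Qbar) : cls u = cls v := by
  rw [cls, cls, QuotientGroup.eq]
  have h1 : ((v / u : ℂˣ) : ℂ) ∈ Qbar := by
    have h2 := inv_mem h
    rwa [← Units.val_inv_eq_inv_val, inv_div] at h2
  rw [mem_algU]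
  rwa [div_eq_inv_mul] at h1

theorem cls_one {u : ℂˣ} (h : cls u = 1) : (u : ℂ) ∈ Qbar := by
  have h1 : cls u = cls 1 := h
  rw [cls, cls, QuotientGroup.eq, mem_algU, mul_one, Units.val_inv_eq_inv_val] at h1
  have h2 := inv_mem h1
  rwa [inv_inv] at h2

end HodM

open HodM in
/-- **Part HOD.** -/
theorem specHOD (hREL : SpecREL) (hLEG : SpecLEG) : SpecHOD := by
  classical
  intro L g N A c hg hL hA hc hGL E hE hall p hp χ hχ
  have hHS : CMM.HalfSet A.psi (Tan A c.1) := CMM.tan' L g N A c hL hA hc hGL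
  set P : EmbC c.1 → ℂˣ ⧸ algU := fun s => cls (Units.mk0 (p s) (hp.ne s)) with hP
  have h1 := Pool.Agent.Lib.MPf11a48.SH.A.specA (Ix g) c.1 A.psi (Tan A c.1) E hE hHS hall.reflex hall.all (ℂˣ ⧸ algU) P
    (cls (Units.mk0 (2 * Real.pi * Complex.I) Complex.two_pi_I_ne_zero)) ?_ ?_ χ hχ
  · have h2 : ∏ s : EmbC c.1, P s ^ χ s =
        cls (∏ s : EmbC c.1, Units.mk0 (p s) (hp.ne s) ^ χ s) := by
      simp only [hP, cls, QuotientGroup.mk_prod, QuotientGroup.mk_zpow]
    rw [h2] at h1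
    have h3 := cls_one h1
    rw [Units.coe_prod] at h3
    simpa only [Units.val_zpow_eq_zpow_val, Units.val_mk0] using h3
  · intro s s' hs hn
    have h2 := hLEG L g N A c hg hL hA hc hGL p hp s s' hn hs
    have h3 : P s * P s' = cls (Units.mk0 (p s) (hp.ne s) * Units.mk0 (p s') (hp.ne s')) := rfl
    rw [h3]
    apply cls_eq
    rw [Units.val_div_eq_div_val, Units.val_mul]
    exact h2
  · intro s₁ s₂ s₃ s₄ n₁ n₂ n₃ n₄ t₁ t₂ t₃ t₄ hind
    have h2 := hREL L g N A c hg hL hA hc hGL p hp ![s₁, s₂, s₃, s₄]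
      (by intro i; fin_cases i <;> assumption) (by intro i; fin_cases i <;> assumption)
      (by
        intro γ
        have h3 := hind γ
        simp only [Pool.Agent.Lib.MPf11a48.SH.A.ind] at h3
        change ((if CMS.act γ s₁ ∈ Tan A c.1 then 1 else 0) +
          (if CMS.act γ s₂ ∈ Tan A c.1 then 1 else 0) : ℕ) =
          (if CMS.act γ s₃ ∈ Tan A c.1 then 1 else 0) +
          (if CMS.act γ s₄ ∈ Tan A c.1 then 1 else 0)
        split_ifs at h3 ⊢ <;> omega)
    have h4 : P s₁ * P s₂ = cls (Units.mk0 (p s₁) (hp.ne s₁) * Units.mk0 (p s₂) (hp.ne s₂)) := rfl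
    have h5 : P s₃ * P s₄ = cls (Units.mk0 (p s₃) (hp.ne s₃) * Units.mk0 (p s₄) (hp.ne s₄)) := rfl
    rw [h4, h5]
    apply cls_eq
    rw [Units.val_div_eq_div_val, Units.val_mul, Units.val_mul]
    exact h2

end Pool.Agent.Lib.MPf11a48.SH
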