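import Pool.Agent.Lib.MP_f11a48_ag.SH.CLS.Cla
import Pool.Agent.Lib.MP_f11a48_ag.CMM.MainS

/-!
# PROJECT S0, part CLS: the classes cut out the torsor of the Mumford-Tate group
-/

set_option autoImplicit false

open Matrix
open Pool.Agent.Lib.MPf11a48.CM (Qbar tens TIdx TPair Fixes OmegaS)
open Pool.Agent.Lib.MPf11a48.GL2T
open Pool.Agent.Lib.MPf11a48.U
open Pool.Agent.Lib.MPf11a48.CMS

namespace Pool.Agent.Lib.MPf11a48.SH.ClsM

theorem tens_mul_mulVec {ι : Type} [Fintype ι] [DecidableEq ι] (n m : ℕ) (x c : GL ι ℂ)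
    (w : TIdx ι n m → ℂ) :
    tens n m (x * c).1 (x * c)⁻¹.1 *ᵥ (tens n m c⁻¹.1 c.1 *ᵥ w) = tens n m x.1 x⁻¹.1 *ᵥ w := by
  have h1 : (x * c)⁻¹.1 = c⁻¹.1 * x⁻¹.1 := by
    rw [_root_.mul_inv_rev]
    rfl
  have h2 : (x * c).1 = x.1 * c.1 := rfl
  have h3 : tens n m c.1 c⁻¹.1 * tens n m c⁻¹.1 c.1 = 1 := by
    rw [← CM.tens_mul, Units.mul_inv, CM.tens_one]
  rw [h1, h2, CM.tens_mul, Matrix.mulVec_mulVec, Matrix.mul_assoc, h3, Matrix.mul_one]

section Cls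

variable {g N : ℕ} {A : AbData g N} {c : GL (Ix g) ℂ} {J : Matrix (Ix g) (Ix g) ℝ}

/-- The Betti tensor. -/
noncomputable def bet {E : Sub} {n m : ℕ} (t : TIdx (Ix g) n m → E) (lam : E) :
    TIdx (Ix g) n m → ℂ := fun I => ((Algebra.trace ℚ E (lam * t I) : ℚ) : ℂ)

theorem bet_eq {E : Sub} [FiniteDimensional ℚ E] (G : (E →ₐ[ℚ] Qbar) → GalQ)
    (hG : ∀ φ (x : E), ap (G φ) (x : Qbar) = φ x) {n m : ℕ} (t : TIdx (Ix g) n m → E) (lam : E) :
    bet t lam = ∑ φ : E →ₐ[ℚ] Qbar, tht E (G φ) lam • fun I => tht E (G φ) (t I) := by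
  funext I
  rw [bet, trace_eq E G hG, Finset.sum_apply]
  refine Finset.sum_congr rfl fun φ _ => ?_
  rw [map_mul]
  rfl

/-- The class. -/
noncomputable def cl (c : GL (Ix g) ℂ) {E : Sub} {n m : ℕ} (t : TIdx (Ix g) n m → E) (lam : E)
    (h : ∀ I, (tens n m c⁻¹.1 c.1 *ᵥ bet t lam) I ∈ Qbar) : TPair Qbar (Ix g) where
  n := n
  m := m
  dR I := ⟨(tens n m c⁻¹.1 c.1 *ᵥ bet t lam) I, h I⟩
  B I := Algebra.trace ℚ E (lam * t I)

theorem fixes_cl {E : Sub} {n m : ℕ} (t : TIdx (Ix g) n m → E) (lam : E)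
    (h : ∀ I, (tens n m c⁻¹.1 c.1 *ᵥ bet t lam) I ∈ Qbar) (x : GL (Ix g) ℂ) :
    Fixes (x * c) (cl c t lam h) ↔ tens n m x.1 x⁻¹.1 *ᵥ bet t lam = bet t lam := by
  rw [CM.fixes_iff, ← tens_mul_mulVec n m x c (bet t lam)]
  rfl

/-- The tensor is a combination of the Betti tensors. -/
theorem tht_eq_sum {E : Sub} [FiniteDimensional ℚ E] {n m : ℕ} (t : TIdx (Ix g) n m → E) :
    ∃ (k : ℕ) (lam : Fin k → E) (e : Fin k → ℂ),
      (fun I => tht E 1 (t I)) = ∑ i, e i • bet t (lam i) := by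
  classical
  let b := Module.finBasis ℚ E
  refine ⟨_, fun i => b i, fun i => tht E 1 (b.traceDual i), ?_⟩
  funext I
  have h1 := (b.traceDual).sum_repr (t I)
  have h2 := congrArg (tht E 1) h1
  rw [map_sum] at h2
  rw [← h2, Finset.sum_apply]
  refine Finset.sum_congr rfl fun i _ => ?_
  rw [Module.Basis.traceDual_repr_apply, Pi.smul_apply, smul_eq_mul, bet, Algebra.smul_def,
    map_mul, tht_rat, Algebra.traceForm_apply, mul_comm, mul_comm (t I) (b i)]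

/-- the entries of finitely many algebraic vectors are in a number field -/
theorem exists_field {κ ι : Type} [Finite κ] [Finite ι] (v : κ → ι → Qbar) :
    ∃ E : Sub, FiniteDimensional ℚ E ∧ ∀ s i, v s i ∈ E := by
  have hfin : (Set.range fun q : κ × ι => v q.1 q.2).Finite := Set.finite_range _
  refine ⟨IntermediateField.adjoin ℚ (Set.range fun q : κ × ι => v q.1 q.2), ?_, fun s i =>
    IntermediateField.subset_adjoin _ _ ⟨(s, i), rfl⟩⟩
  have := hfin.to_subtype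
  exact IntermediateField.finiteDimensional_adjoin fun x _ => Algebra.IsIntegral.isIntegral x

/-- The classes of a Hodge relation. -/
theorem exists_classes (h : HD c J A.psi) (S : Str c A.psi)
    (hT : CMM.HalfSet A.psi (Tan A c.1)) {p : EmbC c.1 → ℂ} (hp : IsPer A c p)
    (hrel : ∀ χ : EmbC c.1 → ℤ, HodgeRel A.psi (Tan A c.1) χ → ∏ s : EmbC c.1, p s ^ χ s ∈ Qbar)
    {χ : EmbC c.1 → ℤ} (hχ : HodgeRel A.psi (Tan A c.1) χ) :
    ∃ C : Set (TPair Qbar (Ix g)),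
      (∀ (x : GL (Ix g) ℂ) (X : S.κ → Matrix (Fin 2) (Fin 2) ℂ) (Y : S.σ → ℂ),
        S.Ψ (X, Y) = x.1 →
        (∀ χ' : EmbC c.1 → ℤ, HodgeRel A.psi (Tan A c.1) χ' → ∏ s, uu S Y s ^ χ' s = 1) →
        ∀ α ∈ C, Fixes (x * c) α) ∧
      ∀ (x : GL (Ix g) ℂ) (X : S.κ → Matrix (Fin 2) (Fin 2) ℂ) (Y : S.σ → ℂ),
        S.Ψ (X, Y) = x.1 → (∀ α ∈ C, Fixes (x * c) α) → ∏ s, uu S Y s ^ χ s = 1 := by
  classical
  set ρ : GalQ := SH.A.RelM.rho with hρd
  have hρ : IsConj ρ := SH.A.RelM.isConj_rho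
  choose v₀ hva hve iv hiv using fun s : EmbC c.1 => RedM.exists_vec S s
  obtain ⟨E, hE, hvE⟩ := exists_field fun (s : EmbC c.1) i => (⟨v₀ s i, hva s i⟩ : Qbar)
  set v : EmbC c.1 → Ix g → E := fun s i => ⟨⟨v₀ s i, hva s i⟩, hvE s i⟩ with hvd
  have hv : ∀ s, Eig s (fun i => ((v s i : Qbar) : ℂ)) := hve
  have hv0 : ∀ s, v s ≠ 0 := by
    intro s h0
    apply hiv s
    have h1 : v₀ s = 0 := by
      funext i
      have h2 := congrFun h0 i
      exact congrArg (fun y : E => ((y : Qbar) : ℂ)) h2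
    rw [h1, Matrix.zero_vecMul]
    rfl
  obtain ⟨n, m, σ, τ, hσ, hτ, hprod⟩ := exists_words χ
  set t := tt A ρ v σ τ with ht
  choose G hG using fun φ : E →ₐ[ℚ] Qbar => CMS.j_surjective E φ
  have hG' : ∀ φ (x : E), ap (G φ) (x : Qbar) = φ x := by
    intro φ x
    rw [← CMS.j_apply, hG]
  have halg : ∀ lam : E, ∀ I, (tens n m c⁻¹.1 c.1 *ᵥ bet t lam) I ∈ Qbar := by
    intro lam I
    rw [bet_eq G hG' t lam, Matrix.mulVec_sum, Finset.sum_apply]
    refine Subfield.sum_mem Qbar.toSubfield fun φ _ => ?_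
    rw [Matrix.mulVec_smul, Pi.smul_apply, smul_eq_mul]
    exact Qbar.mul_mem (tht_mem E _ _) (per_tt h S hT hp hρ hv hχ hσ hτ hprod (G φ)
      (hrel _ (hodgeRel_act hT hχ (G φ))) I)
  refine ⟨Set.range fun lam : E => cl c t lam (halg lam), ?_, ?_⟩
  · rintro x X Y hx hY _ ⟨lam, rfl⟩
    rw [fixes_cl, bet_eq G hG' t lam, Matrix.mulVec_sum]
    refine Finset.sum_congr rfl fun φ _ => ?_
    rw [Matrix.mulVec_smul, act_tt h S hT hρ hv hχ hσ hτ hprod hx (G φ),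
      hY _ (hodgeRel_act hT hχ (G φ)), inv_one, one_smul]
  · intro x X Y hx hfix
    have h1 : ∀ lam, tens n m x.1 x⁻¹.1 *ᵥ bet t lam = bet t lam := fun lam =>
      (fixes_cl t lam (halg lam) x).1 (hfix _ ⟨lam, rfl⟩)
    obtain ⟨k, lam, e, he⟩ := tht_eq_sum t
    have h2 : tens n m x.1 x⁻¹.1 *ᵥ (fun I => tht E 1 (t I)) = fun I => tht E 1 (t I) := by
      rw [he, Matrix.mulVec_sum]
      refine Finset.sum_congr rfl fun i _ => ?_
      rw [Matrix.mulVec_smul, h1]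
    rw [act_tt h S hT hρ hv hχ hσ hτ hprod hx 1] at h2
    -- the tensor is not zero
    have hψ : ∀ w : Ix g → ℂ, mC A.psi⁻¹ *ᵥ w = 0 → w = 0 := by
      intro w hw
      have h3 := congrArg (fun y => mC A.psi *ᵥ y) hw
      simp only [Matrix.mulVec_mulVec, Matrix.mulVec_zero] at h3
      rwa [BicM.mC_mul_inv h.det, Matrix.one_mulVec] at h3
    have hne : ∃ I, tht E 1 (t I) ≠ 0 := by
      have hv1 : ∀ s, (fun k => tht E 1 (v s k)) ≠ 0 := by
        intro s h0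
        apply hv0 s
        funext i
        exact (tht E 1).injective (by rw [congrFun h0 i]; simp)
      obtain ⟨I, hI⟩ := pur_ne (y := fun a => mC A.psi⁻¹ *ᵥ fun k => tht E 1 (v (CMS.act ρ (σ a)) k))
        (v := fun b k => tht E 1 (v (τ b) k)) (fun a h0 => hv1 _ (hψ _ h0)) (fun b => hv1 _)
      refine ⟨I, ?_⟩
      rw [← tht_tt] at hI
      exact hI
    obtain ⟨I, hI⟩ := hne
    have h3 := congrFun h2 I
    rw [Pi.smul_apply, smul_eq_mul] at h3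
    have h4 : (∏ s, uu S Y s ^ χ (CMS.act 1⁻¹ s))⁻¹ = 1 := by
      exact mul_right_cancel₀ hI (h3.trans (one_mul _).symm)
    have h5 : ∏ s, uu S Y s ^ χ (CMS.act 1⁻¹ s) = ∏ s, uu S Y s ^ χ s := by
      refine Finset.prod_congr rfl fun s _ => ?_
      rw [inv_one, SH.A.RelM.act_one]
    rw [← h5]
    exact inv_eq_one.1 h4

end Cls

end Pool.Agent.Lib.MPf11a48.SH.ClsM
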