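import Pool.Agent.Lib.MP_f11a48_ag.SH.CLS.Main

/-!
# PROJECT S0, part CLS: the theorem

`S₀` is the set of all classes which are fixed by the torsor of the Mumford-Tate group.
-/

set_option autoImplicit false

open Matrix
open Pool.Agent.Lib.MPf11a48.CM (Qbar tens TIdx TPair Fixes OmegaS)
open Pool.Agent.Lib.MPf11a48.GL2T
open Pool.Agent.Lib.MPf11a48.U
open Pool.Agent.Lib.MPf11a48.CMS

namespace Pool.Agent.Lib.MPf11a48.SH.ClsM

section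

variable {g N : ℕ} {A : AbData g N} {c : GL (Ix g) ℂ} {J : Matrix (Ix g) (Ix g) ℝ}

/-- The relations for an element of the commutant. -/
theorem relOK_iff (S : Str c A.psi) {x : Matrix (Ix g) (Ix g) ℂ}
    {X : S.κ → Matrix (Fin 2) (Fin 2) ℂ} {Y : S.σ → ℂ} (hx : S.Ψ (X, Y) = x) :
    RelOK A.psi (Tan A c.1) x ↔
      ∀ χ : EmbC c.1 → ℤ, HodgeRel A.psi (Tan A c.1) χ → ∏ s, uu S Y s ^ χ s = 1 := by
  constructor
  · intro h χ hχ
    refine h χ hχ (uu S Y) fun s hs v hv => ?_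
    rw [← hx]
    exact row S X Y hs hv
  · intro h χ hχ u hu
    rw [← h χ hχ]
    refine Finset.prod_congr rfl fun s _ => ?_
    by_cases hs : IsBar A.psi s s
    · rw [hχ.1 s hs, zpow_zero, zpow_zero]
    · obtain ⟨v, -, hv, i, hi⟩ := RedM.exists_vec S s
      have h1 := hu s hs v hv
      rw [← hx, row S X Y hs hv] at h1
      have h2 : v ≠ 0 := by
        rintro rfl
        rw [Matrix.zero_vecMul] at hi
        exact hi rfl
      rw [smul_left_injective ℂ h2 h1]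

theorem one_mem_MT (S : Str c A.psi) : ((1 : GL (Ix g) ℂ), (1 : ℂˣ)) ∈ MT A c := by
  refine ⟨fun Z _ => ?_, ?_, ?_⟩
  · change (1 : Matrix (Ix g) (Ix g) ℂ) * _ = _ * (1 : Matrix (Ix g) (Ix g) ℂ)
    rw [Matrix.one_mul, Matrix.mul_one]
  · change (1 : Matrix (Ix g) (Ix g) ℂ)ᵀ * _ * (1 : Matrix (Ix g) (Ix g) ℂ) = (1 : ℂ) • _
    rw [Matrix.transpose_one, Matrix.one_mul, Matrix.mul_one, one_smul]
  · have h1 : S.Ψ ((1 : S.κ → Matrix (Fin 2) (Fin 2) ℂ), (1 : S.σ → ℂ)) =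
        (1 : Matrix (Ix g) (Ix g) ℂ) := map_one S.Ψ
    refine (relOK_iff S (x := (1 : Matrix (Ix g) (Ix g) ℂ)) h1).2 fun χ _ => ?_
    refine Finset.prod_eq_one fun s _ => ?_
    have h2 : uu S (1 : S.σ → ℂ) s = 1 := by
      unfold uu
      rcases S.ev.symm s with k | j <;> rfl
    rw [h2, _root_.one_zpow]

/-- The algebraic matrix `B'` with `c B' = B c`, as a matrix over `Qbar`. -/
theorem exists_dR {B : Matrix (Ix g) (Ix g) ℚ} (hB : B ∈ EndAlg c.1) :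
    ∃ B' : Matrix (Ix g) (Ix g) Qbar,
      c.1 * B'.map (algebraMap Qbar ℂ) = B.map (algebraMap ℚ ℂ) * c.1 := by
  obtain ⟨B', hB', h⟩ := hB
  refine ⟨fun i j => ⟨B' i j, hB' i j⟩, ?_⟩
  rw [CMS.castMap]
  exact h

theorem fixes_end {B : Matrix (Ix g) (Ix g) ℚ} {B' : Matrix (Ix g) (Ix g) Qbar}
    (h : c.1 * B'.map (algebraMap Qbar ℂ) = B.map (algebraMap ℚ ℂ) * c.1) {x : GL (Ix g) ℂ}
    (hx : x.1 * B.map (algebraMap ℚ ℂ) = B.map (algebraMap ℚ ℂ) * x.1) :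
    Fixes (x * c) (GL2.endPair B' B) := by
  rw [GL2.fixes_endPair]
  have h1 : (x * c)⁻¹.1 = c⁻¹.1 * x⁻¹.1 := by
    rw [_root_.mul_inv_rev]
    rfl
  have h2 : (x * c).1 = x.1 * c.1 := rfl
  rw [h1, h2]
  calc x.1 * c.1 * B'.map (algebraMap Qbar ℂ) * (c⁻¹.1 * x⁻¹.1)
      = x.1 * (c.1 * B'.map (algebraMap Qbar ℂ)) * c⁻¹.1 * x⁻¹.1 := by
        simp only [Matrix.mul_assoc]
    _ = x.1 * B.map (algebraMap ℚ ℂ) * (c.1 * c⁻¹.1) * x⁻¹.1 := by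
        rw [h]
        simp only [Matrix.mul_assoc]
    _ = B.map (algebraMap ℚ ℂ) := by
        rw [Units.mul_inv, Matrix.mul_one, hx, Matrix.mul_assoc, Units.mul_inv, Matrix.mul_one]

theorem comm_of_fixes {B : Matrix (Ix g) (Ix g) ℚ} {B' : Matrix (Ix g) (Ix g) Qbar}
    (h : c.1 * B'.map (algebraMap Qbar ℂ) = B.map (algebraMap ℚ ℂ) * c.1) {x : GL (Ix g) ℂ}
    (hx : Fixes (x * c) (GL2.endPair B' B)) :
    x.1 * B.map (algebraMap ℚ ℂ) = B.map (algebraMap ℚ ℂ) * x.1 := by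
  rw [GL2.fixes_endPair] at hx
  have h1 : (x * c)⁻¹.1 = c⁻¹.1 * x⁻¹.1 := by
    rw [_root_.mul_inv_rev]
    rfl
  have h2 : (x * c).1 = x.1 * c.1 := rfl
  rw [h1, h2] at hx
  have h3 : x.1 * B.map (algebraMap ℚ ℂ) * x⁻¹.1 = B.map (algebraMap ℚ ℂ) := by
    refine Eq.trans ?_ hx
    calc x.1 * B.map (algebraMap ℚ ℂ) * x⁻¹.1
        = x.1 * (B.map (algebraMap ℚ ℂ) * (c.1 * c⁻¹.1)) * x⁻¹.1 := by
          rw [Units.mul_inv, Matrix.mul_one]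
      _ = x.1 * (B.map (algebraMap ℚ ℂ) * c.1) * c⁻¹.1 * x⁻¹.1 := by
          simp only [Matrix.mul_assoc]
      _ = x.1 * c.1 * B'.map (algebraMap Qbar ℂ) * (c⁻¹.1 * x⁻¹.1) := by
          rw [← h]
          simp only [Matrix.mul_assoc]
  conv_rhs => rw [← h3]
  rw [Matrix.mul_assoc, Matrix.mul_assoc, Units.inv_mul, Matrix.mul_one]

/-- The Gram matrix on the de Rham side. -/
theorem exists_gram (h : HD c J A.psi) : ∃ D : Matrix (Ix g) (Ix g) Qbar,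
    c.1ᵀ * A.psi.map (algebraMap ℚ ℂ) * c.1 =
      (2 * Real.pi * Complex.I : ℂ) • D.map (algebraMap Qbar ℂ) := by
  obtain ⟨D, hD, hleg⟩ := h.leg
  refine ⟨fun i j => ⟨D i j, hD i j⟩, ?_⟩
  rw [CMS.castMap]
  exact hleg

theorem fixes_pol (h : HD c J A.psi) {D : Matrix (Ix g) (Ix g) Qbar}
    (hD : c.1ᵀ * A.psi.map (algebraMap ℚ ℂ) * c.1 =
      (2 * Real.pi * Complex.I : ℂ) • D.map (algebraMap Qbar ℂ)) {x : GL (Ix g) ℂ} {z : ℂˣ}
    (hx : x.1ᵀ * A.psi.map (algebraMap ℚ ℂ) * x.1 = (z : ℂ) • A.psi.map (algebraMap ℚ ℂ)) :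
    Fixes (x * c) (GL2.polPair D A.psi) := by
  refine GL2.fixes_of_sim h.det (μ := (z : ℂ) * (2 * Real.pi * Complex.I)) ?_
    (mul_ne_zero z.ne_zero Complex.two_pi_I_ne_zero)
  have h2 : (x * c).1 = x.1 * c.1 := rfl
  rw [h2, Matrix.transpose_mul]
  calc c.1ᵀ * x.1ᵀ * A.psi.map (algebraMap ℚ ℂ) * (x.1 * c.1)
      = c.1ᵀ * (x.1ᵀ * A.psi.map (algebraMap ℚ ℂ) * x.1) * c.1 := by
        simp only [Matrix.mul_assoc]
    _ = _ := by
        rw [hx, Matrix.mul_smul, Matrix.smul_mul, hD, smul_smul]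

theorem sim_of_fixes (h : HD c J A.psi) (hg : 0 < g) {D : Matrix (Ix g) (Ix g) Qbar}
    (hD : c.1ᵀ * A.psi.map (algebraMap ℚ ℂ) * c.1 =
      (2 * Real.pi * Complex.I : ℂ) • D.map (algebraMap Qbar ℂ)) {x : GL (Ix g) ℂ}
    (hx : Fixes (x * c) (GL2.polPair D A.psi)) :
    ∃ z : ℂˣ, x.1ᵀ * A.psi.map (algebraMap ℚ ℂ) * x.1 =
      (z : ℂ) • A.psi.map (algebraMap ℚ ℂ) := by
  obtain ⟨μ, hμ⟩ := GL2.sim_of_fixes h.det hx
  have h2pi : (2 * Real.pi * Complex.I : ℂ) ≠ 0 := Complex.two_pi_I_ne_zero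
  have h2 : (x * c).1 = x.1 * c.1 := rfl
  rw [h2, Matrix.transpose_mul] at hμ
  have h3 : x.1ᵀ * A.psi.map (algebraMap ℚ ℂ) * x.1 =
      (μ * (2 * Real.pi * Complex.I : ℂ)⁻¹) • A.psi.map (algebraMap ℚ ℂ) := by
    have e1 : c⁻¹.1ᵀ * c.1ᵀ = 1 := by
      rw [← Matrix.transpose_mul, Units.mul_inv, Matrix.transpose_one]
    calc x.1ᵀ * A.psi.map (algebraMap ℚ ℂ) * x.1
        = (c⁻¹.1ᵀ * c.1ᵀ) * (x.1ᵀ * A.psi.map (algebraMap ℚ ℂ) * x.1) * (c.1 * c⁻¹.1) := by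
          rw [e1, Units.mul_inv, Matrix.one_mul, Matrix.mul_one]
      _ = c⁻¹.1ᵀ * (c.1ᵀ * x.1ᵀ * A.psi.map (algebraMap ℚ ℂ) * (x.1 * c.1)) * c⁻¹.1 := by
          simp only [Matrix.mul_assoc]
      _ = c⁻¹.1ᵀ * ((μ * (2 * Real.pi * Complex.I : ℂ)⁻¹) •
            (c.1ᵀ * A.psi.map (algebraMap ℚ ℂ) * c.1)) * c⁻¹.1 := by
          rw [hμ, hD, smul_smul, inv_mul_cancel_right₀ h2pi]
      _ = (μ * (2 * Real.pi * Complex.I : ℂ)⁻¹) •
            ((c⁻¹.1ᵀ * c.1ᵀ) * A.psi.map (algebraMap ℚ ℂ) * (c.1 * c⁻¹.1)) := by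
          rw [Matrix.mul_smul, Matrix.smul_mul]
          simp only [Matrix.mul_assoc]
      _ = _ := by rw [e1, Units.mul_inv, Matrix.one_mul, Matrix.mul_one]
  have hμ0 : μ * (2 * Real.pi * Complex.I : ℂ)⁻¹ ≠ 0 := by
    intro h0
    rw [h0, zero_smul] at h3
    have h4 := congrArg Matrix.det h3
    have : Nonempty (Ix g) := ⟨Sum.inl ⟨0, hg⟩⟩
    rw [Matrix.det_mul, Matrix.det_mul, Matrix.det_transpose, Matrix.det_zero] at h4
    have h5 : IsUnit x.1.det := (Matrix.isUnit_iff_isUnit_det _).1 x.isUnit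
    have h6 : (A.psi.map (algebraMap ℚ ℂ)).det ≠ 0 := by
      have h7 := (algebraMap ℚ ℂ).map_det A.psi
      rw [RingHom.mapMatrix_apply] at h7
      rw [← h7]
      exact (map_ne_zero _).2 h.det
    exact mul_ne_zero (mul_ne_zero h5.ne_zero h6) h5.ne_zero h4
  exact ⟨Units.mk0 _ hμ0, h3⟩

/-- **The theorem**, for the structure of an abelian variety. -/
theorem cls_of (h : HD c J A.psi) (hg : 0 < g) (S : Str c A.psi)
    (hT : CMM.HalfSet A.psi (Tan A c.1)) {p : EmbC c.1 → ℂ} (hp : IsPer A c p)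
    (hrel : ∀ χ : EmbC c.1 → ℤ, HodgeRel A.psi (Tan A c.1) χ →
      ∏ s : EmbC c.1, p s ^ χ s ∈ Qbar) :
    ∃ S₀ : Set (TPair Qbar (Ix g)), (∀ α ∈ S₀, Fixes c α) ∧
      OmegaS S₀ = {f | ∃ y ∈ MT A c, f = y.1 * c} := by
  have hcast : A.psi.map (algebraMap ℚ ℂ) = A.psi.map (fun x => (x : ℂ)) := CMS.castMap _
  refine ⟨{α | ∀ y ∈ MT A c, Fixes (y.1 * c) α}, fun α hα => ?_, ?_⟩
  · have h1 := hα _ (one_mem_MT S)
    rwa [one_mul] at h1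
  apply Set.Subset.antisymm
  swap
  · rintro f ⟨y, hy, rfl⟩ α hα
    exact hα y hy
  intro f hf
  set x : GL (Ix g) ℂ := f * c⁻¹ with hx
  have hfx : f = x * c := by rw [hx, inv_mul_cancel_right]
  -- the endomorphisms
  have hcomm : ∀ Z ∈ EndAlg c.1, x.1 * Z.map (fun x => (x : ℂ)) =
      Z.map (fun x => (x : ℂ)) * x.1 := by
    intro Z hZ
    obtain ⟨B', hB'⟩ := exists_dR hZ
    rw [← CMS.castMap]
    refine comm_of_fixes hB' ?_
    rw [← hfx]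
    refine hf _ fun y hy => fixes_end hB' ?_
    rw [CMS.castMap]
    exact hy.1 Z hZ
  -- the polarisation
  obtain ⟨D, hD⟩ := exists_gram h
  obtain ⟨z, hz⟩ := sim_of_fixes h hg hD (x := x) (by
    rw [← hfx]
    refine hf _ fun y hy => fixes_pol h hD (z := y.2) ?_
    rw [hcast]
    exact hy.2.1)
  obtain ⟨X, Y, hXY⟩ := exists_pre S hcomm
  refine ⟨(x, z), ⟨hcomm, ?_, ?_⟩, hfx⟩
  · rw [← hcast]
    exact hz
  · refine (relOK_iff S hXY).2 fun χ hχ => ?_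
    obtain ⟨C, hC1, hC2⟩ := exists_classes h S hT hp hrel hχ
    refine hC2 x X Y hXY fun α hα => ?_
    rw [← hfx]
    refine hf α fun y hy => ?_
    obtain ⟨X', Y', hXY'⟩ := exists_pre S hy.1
    exact hC1 y.1 X' Y' hXY' ((relOK_iff S hXY').1 hy.2.2) α hα

end

end Pool.Agent.Lib.MPf11a48.SH.ClsM

namespace Pool.Agent.Lib.MPf11a48.SH

/-- **Part CLS**, with equality. -/
theorem clsE (L : IntermediateField ℚ ℂ) (g N : ℕ) (A : AbData g N) (c : GL (Ix g) ℂ)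
    (hg : 0 < g) (hL : L ≤ Qbar) (hA : A.IsAbVar L) (hc : c.1 = A.per)
    (hGL : GL2Like c.1 A.psi) (p : EmbC c.1 → ℂ) (hp : IsPer A c p)
    (hrel : ∀ χ : EmbC c.1 → ℤ, HodgeRel A.psi (Tan A c.1) χ →
      ∏ s : EmbC c.1, p s ^ χ s ∈ Qbar) :
    ∃ S₀ : Set (TPair Qbar (Ix g)), (∀ α ∈ S₀, Fixes c α) ∧
      OmegaS S₀ = {f | ∃ y ∈ MT A c, f = y.1 * c} := by
  obtain ⟨⟨J, hJ⟩, -⟩ := hda' specTL' L g N A c hL hA hc
  obtain ⟨S⟩ := CMM.str' c J _ hJ hGL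
  exact ClsM.cls_of hJ hg S (CMM.tan' L g N A c hL hA hc hGL) hp hrel

theorem specCLS : SpecCLS := by
  intro L g N A c hg hL hA hc hGL p hp hrel
  obtain ⟨S₀, h1, h2⟩ := clsE L g N A c hg hL hA hc hGL p hp hrel
  exact ⟨S₀, h1, fun f hf => by rwa [h2] at hf⟩

end Pool.Agent.Lib.MPf11a48.SH
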